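import Pool.Agent.W983.PL.Stm

/-!
# PC-SG: the reflection conjugates the generators to their inverses
-/

set_option autoImplicit false

namespace Pool.Agent.W395.PC

open Pool.Agent.W983.PL

/-- one affine piece is inverted by the opposite piece -/
lemma piece {d m x : ℝ} (hd : 0 < d) (hm : 0 < m) (h0 : 0 ≤ x) (h1 : x ≤ m) :
    0 ≤ x * (d / m) ∧ x * (d / m) ≤ d ∧ (d - x * (d / m)) * (m / d) = m - x := by
  refine ⟨by positivity, ?_, ?_⟩
  · have : x * (d / m) ≤ m * (d / m) := mul_le_mul_of_nonneg_right h1 (by positivity)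
    rwa [mul_div_cancel₀ _ hm.ne'] at this
  · field_simp

theorem main (hBC : S_BC) : S_SG := by
  intro F g hg σ hσ k
  obtain ⟨h1, h2, -, -, h5, -⟩ := hBC.1 k
  set b := bb k with hb
  set c := cc k with hc
  have hb0 : 0 < b := by linarith
  have hd : 0 < c - b := by linarith
  have hm : 0 < 1 - 2 * c := by linarith
  have hm' : 0 < 2 * b := by linarith
  have per := hg.lift.per k
  have hL := hg.lift.L k
  have hY := hg.lift.Y k
  have hT := hg.lift.T k
  have hR := hg.lift.R k
  rw [← hb, ← hc] at hL hY hT hR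
  have key : ∀ t, -b ≤ t → t < -b + 1 → F k (1 / 2 - F k t) = 1 / 2 - t := by
    intro t ht1 ht2
    rcases le_or_gt t b with h | h
    · obtain ⟨e1, e2, e3⟩ := piece hd hm' (x := t + b) (by linarith) (by linarith)
      rw [hL t ht1 h]
      rw [show 1 / 2 - (1 / 2 - c + (t + b) * ((c - b) / (2 * b))) =
        c - (t + b) * ((c - b) / (2 * b)) by ring]
      rw [hY _ (by linarith) (by linarith)]
      rw [show c - (t + b) * ((c - b) / (2 * b)) - b = (c - b) - (t + b) * ((c - b) / (2 * b)) by
        ring, e3]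
      ring
    rcases le_or_gt t c with h' | h'
    · obtain ⟨e1, e2, e3⟩ := piece hm' hd (x := t - b) (by linarith) (by linarith)
      rw [hY t h.le h']
      rw [show 1 / 2 - (1 / 2 - b + (t - b) * (2 * b / (c - b))) =
        b - (t - b) * (2 * b / (c - b)) by ring]
      rw [hL _ (by linarith) (by linarith)]
      rw [show b - (t - b) * (2 * b / (c - b)) + b = 2 * b - (t - b) * (2 * b / (c - b)) by
        ring, e3]
      ring
    rcases le_or_gt t (1 - c) with h'' | h''
    · obtain ⟨e1, e2, e3⟩ := piece hd hm (x := t - c) (by linarith) (by linarith)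
      have e4 := per (1 / 2 - F k t)
      rw [hT t h'.le h''] at e4 ⊢
      rw [hR _ (by linarith) (by linarith)] at e4
      rw [show 1 / 2 - (1 / 2 + b + (t - c) * ((c - b) / (1 - 2 * c))) + 1 - (1 - c) =
        (c - b) - (t - c) * ((c - b) / (1 - 2 * c)) by ring, e3] at e4
      linarith
    · obtain ⟨e1, e2, e3⟩ := piece hm hd (x := t - (1 - c)) (by linarith) (by linarith)
      have e4 := per (1 / 2 - F k t)
      rw [hR t h''.le (by linarith)] at e4 ⊢
      rw [hT _ (by linarith) (by linarith)] at e4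
      rw [show 1 / 2 - (1 / 2 + c + (t - (1 - c)) * ((1 - 2 * c) / (c - b))) + 1 - c =
        (1 - 2 * c) - (t - (1 - c)) * ((1 - 2 * c) / (c - b)) by ring, e3] at e4
      linarith
  have hgs : ∀ w : Circle, g k (σ (g k w)) = σ w := by
    intro w
    obtain ⟨t, ht1, ht2, rfl⟩ := E_surj' (-b) w
    rw [hg.gE, hσ, hg.gE, hσ, key t ht1 ht2]
  have hss : ∀ w : Circle, σ (σ w) = w := by
    intro w
    obtain ⟨t, -, -, rfl⟩ := E_surj w
    rw [hσ, hσ]
    refine congrArg E ?_
    ring
  refine eq_inv_of_mul_eq_one_right ?_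
  ext z
  show ((g k (σ (g k (σ z))) : Circle) : ℂ) = z
  rw [hgs, hss]

end Pool.Agent.W395.PC
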